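import Pool.Agent.X34.CY.Stm

set_option autoImplicit false
open Finset

namespace Pool.Agent.X193.CY
open Pool.Agent.X34.CY

lemma bezout {k : ℕ} (v : Fin k → ℤ) (s : Finset (Fin k)) :
    ∃ c : Fin k → ℤ, ∑ i ∈ s, c i * v i = ((s.gcd fun i => (v i).natAbs : ℕ) : ℤ) := by
  classical
  induction s using Finset.induction_on with
  | empty => exact ⟨0, by simp⟩
  | insert a s ha ih =>
    obtain ⟨c, hc⟩ := ih
    set g : ℕ := s.gcd fun i => (v i).natAbs with hg
    refine ⟨fun i => if i = a then Int.gcdA (v a) g else Int.gcdB (v a) g * c i, ?_⟩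
    have h1 : (((insert a s).gcd fun i => (v i).natAbs : ℕ) : ℤ) = (Int.gcd (v a) g : ℤ) := by
      rw [Finset.gcd_insert, ← hg]
      rfl
    have h2 : (g : ℤ) * Int.gcdB (v a) g = ∑ i ∈ s, (Int.gcdB (v a) g * c i) * v i := by
      generalize Int.gcdB (v a) g = B
      rw [← hc, Finset.sum_mul]
      exact Finset.sum_congr rfl fun i _ => by ring
    rw [h1, Int.gcd_eq_gcd_ab, Finset.sum_insert ha, h2]
    beta_reduce
    rw [if_pos rfl]
    congr 1
    · ring
    · refine Finset.sum_congr rfl fun i hi => ?_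
      have : i ≠ a := fun e => ha (e ▸ hi)
      rw [if_neg this]

lemma exists_coeff {G : Type} [AddCommGroup G] (S : Finset G) (x : G)
    (hx : x ∈ AddSubgroup.closure (S : Set G)) : ∃ n : S → ℤ, ∑ s, n s • (s : G) = x := by
  classical
  induction hx using AddSubgroup.closure_induction with
  | mem x hx =>
    refine ⟨Pi.single ⟨x, hx⟩ 1, ?_⟩
    rw [Finset.sum_eq_single (⟨x, hx⟩ : S)]
    · simp
    · intro b _ hb
      rw [Pi.single_eq_of_ne hb, zero_smul]
    · intro h
      exact absurd (mem_univ _) h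
  | zero => exact ⟨0, by simp⟩
  | add x y _ _ hx hy =>
    obtain ⟨n, hn⟩ := hx
    obtain ⟨m, hm⟩ := hy
    refine ⟨n + m, ?_⟩
    rw [← hn, ← hm, ← sum_add_distrib]
    exact sum_congr rfl fun s _ => by rw [Pi.add_apply, add_smul]
  | neg x _ hx =>
    obtain ⟨n, hn⟩ := hx
    refine ⟨-n, ?_⟩
    rw [← hn, ← sum_neg_distrib]
    exact sum_congr rfl fun s _ => by rw [Pi.neg_apply, neg_smul]

lemma cardA {G : Type} [AddCommGroup G] [Fintype G] [DecidableEq G] (g : ℕ) (hg : 0 < g) :
    Fintype.card G ≤ g ^ dG G * (univ.image fun x : G => g • x).card := by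
  classical
  have hne : {m : ℕ | ∃ S : Finset G, S.card = m ∧ AddSubgroup.closure (S : Set G) = ⊤}.Nonempty :=
    ⟨_, univ, rfl, by simp⟩
  obtain ⟨S, hS, hcl⟩ := Nat.sInf_mem hne
  have hS' : S.card = dG G := hS
  let F : (S → Fin g) × (univ.image fun x : G => g • x) → G :=
    fun p => (∑ s, (p.1 s : ℕ) • (s : G)) + (p.2 : G)
  have hF : Function.Surjective F := by
    intro x
    obtain ⟨n, hn⟩ := exists_coeff S x (by rw [hcl]; trivial)
    have hgz : (0 : ℤ) < g := by exact_mod_cast hg
    refine ⟨(fun s => ⟨(n s % g).toNat, ?_⟩, ⟨g • ∑ s, (n s / g) • (s : G), ?_⟩), ?_⟩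
    · have h1 := Int.emod_nonneg (n s) hgz.ne'
      have h2 := Int.emod_lt_of_pos (n s) hgz
      omega
    · exact mem_image_of_mem _ (mem_univ _)
    · show (∑ s, ((n s % g).toNat : ℕ) • (s : G)) + g • ∑ s, (n s / g) • (s : G) = x
      rw [← hn, Finset.smul_sum, ← sum_add_distrib]
      refine sum_congr rfl fun s _ => ?_
      have h1 := Int.emod_nonneg (n s) hgz.ne'
      rw [← natCast_zsmul, ← natCast_zsmul, Int.toNat_of_nonneg h1, smul_smul, ← add_smul,
        Int.emod_add_mul_ediv]
  have h := Fintype.card_le_of_surjective F hF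
  rw [Fintype.card_prod, Fintype.card_fun, Fintype.card_fin, Fintype.card_coe, Fintype.card_coe,
    hS'] at h
  exact h

theorem t_GRP : S_GRP := by
  intro G _ _ _ k v hv
  classical
  set g : ℕ := univ.gcd fun i => (v i).natAbs with hg
  have hg0 : 0 < g := by
    rw [Nat.pos_iff_ne_zero]
    intro h
    rw [hg, Finset.gcd_eq_zero_iff] at h
    apply hv
    funext i
    exact Int.natAbs_eq_zero.1 (h i (mem_univ i))
  obtain ⟨c, hc⟩ := bezout v univ
  rw [← hg] at hc
  set R : Finset G := univ.image fun x : G => g • x with hR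
  have hA : Fintype.card G ≤ g ^ dG G * R.card := cardA g hg0
  have hRpos : 0 < R.card := card_pos.2 ⟨g • (0 : G), mem_image_of_mem _ (mem_univ _)⟩
  have hB : Fintype.card G ≤ Fintype.card G * R.card := Nat.le_mul_of_pos_right _ hRpos
  have hmin : Fintype.card G ≤ min (g ^ dG G) (Fintype.card G) * R.card := by
    rcases le_total (g ^ dG G) (Fintype.card G) with h | h
    · rw [min_eq_left h]; exact hA
    · rw [min_eq_right h]; exact hB
  -- section
  have hsec : ∀ y : G, y ∈ R → ∃ z : Fin k → G, ∑ i, v i • z i = y := by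
    intro y hy
    obtain ⟨x, _, rfl⟩ := mem_image.1 hy
    refine ⟨fun i => c i • x, ?_⟩
    simp only [smul_smul]
    rw [← sum_smul]
    have : ∑ i, v i * c i = (g : ℤ) := by
      rw [← hc]
      exact sum_congr rfl fun i _ => mul_comm _ _
    rw [this, natCast_zsmul]
  choose! sec hsec' using hsec
  have hC : (univ.filter fun z : Fin k → G => ∑ i, v i • z i = 0).card * R.card ≤
      Fintype.card G ^ k := by
    rw [← card_product]
    have h1 : (univ : Finset (Fin k → G)).card = Fintype.card G ^ k := by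
      rw [card_univ, Fintype.card_fun, Fintype.card_fin]
    rw [← h1]
    refine Finset.card_le_card_of_injOn (fun p : (Fin k → G) × G => p.1 + sec p.2)
      (fun _ _ => mem_coe.2 (mem_univ _)) ?_
    rintro ⟨z, y⟩ hzy ⟨z', y'⟩ hzy' he
    rw [mem_coe, mem_product, mem_filter] at hzy hzy'
    obtain ⟨⟨_, hz⟩, hy⟩ := hzy
    obtain ⟨⟨_, hz'⟩, hy'⟩ := hzy'
    have hφ : ∀ (z : Fin k → G) (y : G), ∑ i, v i • z i = 0 → y ∈ R →
        ∑ i, v i • ((z + sec y : Fin k → G) i) = y := by
      intro z y hz hy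
      simp only [Pi.add_apply, smul_add, sum_add_distrib]
      rw [hz, zero_add, hsec' y hy]
    have e1 := hφ z y hz hy
    have e2 := hφ z' y' hz' hy'
    have he' : z + sec y = z' + sec y' := he
    rw [he'] at e1
    have hyy : y = y' := e1.symm.trans e2
    subst hyy
    have hzz : z = z' := add_right_cancel he'
    rw [hzz]
  calc (univ.filter fun z : Fin k → G => ∑ i, v i • z i = 0).card * Fintype.card G
      ≤ (univ.filter fun z : Fin k → G => ∑ i, v i • z i = 0).card *
        (min (g ^ dG G) (Fintype.card G) * R.card) := Nat.mul_le_mul_left _ hmin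
    _ = min (g ^ dG G) (Fintype.card G) *
        ((univ.filter fun z : Fin k → G => ∑ i, v i • z i = 0).card * R.card) := by ring
    _ ≤ min (g ^ dG G) (Fintype.card G) * Fintype.card G ^ k := Nat.mul_le_mul_left _ hC

end Pool.Agent.X193.CY
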